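import Pool.Agent.H11.NZ.Targets

/-!
# A joint eigenvector with different eigenvalues
-/

set_option autoImplicit false

open Equiv (Perm)

namespace Pool.Agent.H21.NZ.DV

open Pool.Agent.H11.NZ Pool.Agent.H11.NY

variable {L I K V : Type} [Group L] [Field K] [AddCommGroup V] [Module K V]

/-- An invariant subspace contains an eigenvector. -/
lemma eig [IsAlgClosed K] [Module.Finite K V] (f : Module.End K V) (U : Submodule K V)
    (hU : U ≠ ⊥) (hf : ∀ u ∈ U, f u ∈ U) : ∃ (z : K) (u : V), u ∈ U ∧ u ≠ 0 ∧ f u = z • u := by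
  have : Nontrivial U := Submodule.nontrivial_iff_ne_bot.2 hU
  obtain ⟨z, hz⟩ := Module.End.exists_eigenvalue (f.restrict hf)
  obtain ⟨u, hu⟩ := hz.exists_hasEigenvector
  refine ⟨z, u, u.2, ?_, ?_⟩
  · intro h
    exact hu.2 (Subtype.ext h)
  · have h1 := hu.apply_eq_smul
    have h2 := congrArg (fun w : U => (w : V)) h1
    simpa using h2

lemma rho_inv (ρ : L →* Module.End K V) (x : L) (v : V) : ρ x⁻¹ (ρ x v) = v := by
  rw [← Module.End.mul_apply, ← map_mul, inv_mul_cancel, map_one, Module.End.one_apply]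

lemma rho_inv' (ρ : L →* Module.End K V) (x : L) (v : V) : ρ x (ρ x⁻¹ v) = v := by
  rw [← Module.End.mul_apply, ← map_mul, mul_inv_cancel, map_one, Module.End.one_apply]

/-- The case of equal operators is impossible. -/
lemma noteq (ρ : L →* Module.End K V) (Z M : Subgroup L) (T : I → Subgroup L)
    (hcomm : ∀ i k : I, i ≠ k → ∀ x ∈ T i, ∀ y ∈ T k, ρ x * ρ y = ρ y * ρ x)
    (hTM : ∀ i, T i ≤ M) (hM : M ≤ (⨆ i, T i) ⊔ Z) (hZn : Z.Normal)
    (hZ : ∀ x ∈ M, x ∈ Z ↔ ∃ z : K, ∀ v : V, ρ x v = z • v) (hZM : Z ≤ M)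
    (hF : Faith ρ M) (U : Submodule K V) (hU : U ≠ ⊥) (i0 i1 : I) (h01 : i0 ≠ i1)
    (hU0 : ∀ y ∈ T i0, ∀ u ∈ U, ρ y u ∈ U)
    (x x' : L) (hx : x ∈ T i0) (hx' : x' ∈ T i1) (c : L) (hc : c ∈ T i0)
    (hxc : x * c * x⁻¹ * c⁻¹ ∉ Z) : ¬ ∀ u ∈ U, ρ x u = ρ x' u := by
  intro hD
  have cap : ∀ i k : I, i ≠ k → ∀ x ∈ T i, ∀ y ∈ T k, ∀ v : V, ρ x (ρ y v) = ρ y (ρ x v) := by
    intro i k hik x hx y hy v
    have := hcomm i k hik x hx y hy
    rw [← Module.End.mul_apply, this, Module.End.mul_apply]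
  set g := x * c * x⁻¹ * c⁻¹ with hg
  have hgT : g ∈ T i0 :=
    (T i0).mul_mem ((T i0).mul_mem ((T i0).mul_mem hx hc) ((T i0).inv_mem hx))
      ((T i0).inv_mem hc)
  have hgU : ∀ u ∈ U, ρ g u = u := by
    intro u hu
    have h1 : ρ x⁻¹ (ρ c⁻¹ u) ∈ U :=
      hU0 _ ((T i0).inv_mem hx) _ (hU0 _ ((T i0).inv_mem hc) _ hu)
    have h2 : ρ g u = ρ x (ρ c (ρ x⁻¹ (ρ c⁻¹ u))) := by
      simp only [hg, map_mul, Module.End.mul_apply]
    rw [h2, hD _ (hU0 _ hc _ h1), ← cap i0 i1 h01 c hc x' hx', ← hD _ h1, rho_inv', rho_inv']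
  -- the invariant subspace
  let H : Subgroup L := ⨆ i : {i : I // i ≠ i0}, T i
  have hH : ∀ h ∈ H, ∀ y ∈ T i0, ∀ v : V, ρ h (ρ y v) = ρ y (ρ h v) := by
    intro h hh y hy
    refine Subgroup.iSup_induction (C := fun h => ∀ v : V, ρ h (ρ y v) = ρ y (ρ h v)) _ hh ?_ ?_ ?_
    · rintro ⟨i, hi⟩ a ha v
      exact cap i i0 hi a ha y hy v
    · intro v
      rw [map_one, Module.End.one_apply, Module.End.one_apply]
    · intro a b ha hb v
      rw [map_mul, Module.End.mul_apply, Module.End.mul_apply, hb, ha]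
  let U' : Submodule K V := Submodule.span K {w | ∃ h ∈ H, ∃ u ∈ U, w = ρ h u}
  have hUU' : U ≤ U' := by
    intro u hu
    refine Submodule.subset_span ⟨1, H.one_mem, u, hu, ?_⟩
    rw [map_one, Module.End.one_apply]
  have hU'ne : U' ≠ ⊥ := fun h => hU (le_bot_iff.1 (h ▸ hUU'))
  have pres : ∀ y : L, (∀ h ∈ H, ∀ u ∈ U, ρ y (ρ h u) ∈ U') → ∀ w ∈ U', ρ y w ∈ U' := by
    intro y hy w hw
    induction hw using Submodule.span_induction with
    | mem w hw =>
      obtain ⟨h, hh, u, hu, rfl⟩ := hw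
      exact hy h hh u hu
    | zero => rw [map_zero]; exact U'.zero_mem
    | add a b _ _ ha hb => rw [map_add]; exact U'.add_mem ha hb
    | smul z a _ ha => rw [map_smul]; exact U'.smul_mem z ha
  have hTinv : ∀ i, ∀ y ∈ T i, ∀ w ∈ U', ρ y w ∈ U' := by
    intro i y hy
    refine pres y (fun h hh u hu => ?_)
    by_cases hi : i = i0
    · subst hi
      rw [← hH h hh y hy]
      exact Submodule.subset_span ⟨h, hh, _, hU0 y hy u hu, rfl⟩
    · refine Submodule.subset_span ⟨y * h, H.mul_mem ?_ hh, u, hu, ?_⟩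
      · exact (le_iSup (fun i : {i : I // i ≠ i0} => T i) ⟨i, hi⟩) hy
      · rw [map_mul, Module.End.mul_apply]
  have hMinv : ∀ y ∈ M, ∀ w ∈ U', ρ y w ∈ U' := by
    intro y hy w hw
    have h1 := hM hy
    rw [Subgroup.mem_sup_of_normal_right] at h1
    obtain ⟨a, ha, b, hb, rfl⟩ := h1
    have h2 : ρ b w ∈ U' := by
      obtain ⟨z, hz⟩ := (hZ b (hZM hb)).1 hb
      rw [hz]
      exact U'.smul_mem z hw
    rw [map_mul, Module.End.mul_apply]
    revert h2
    generalize ρ b w = w'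
    revert w'
    refine Subgroup.iSup_induction (C := fun a => ∀ w' : V, w' ∈ U' → ρ a w' ∈ U') _ ha ?_ ?_ ?_
    · intro i a ha w' hw'
      exact hTinv i a ha w' hw'
    · intro w' hw'
      rw [map_one, Module.End.one_apply]
      exact hw'
    · intro a b ha hb w' hw'
      rw [map_mul, Module.End.mul_apply]
      exact ha _ (hb _ hw')
  have hgU' : ∀ w ∈ U', ρ g w = w := by
    intro w hw
    induction hw using Submodule.span_induction with
    | mem w hw =>
      obtain ⟨h, hh, u, hu, rfl⟩ := hw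
      rw [← hH h hh g hgT, hgU u hu]
    | zero => rw [map_zero]
    | add a b _ _ ha hb => rw [map_add, ha, hb]
    | smul z a _ ha => rw [map_smul, ha]
  have hzero : ρ g - ρ 1 = 0 := by
    refine hF (ρ g - ρ 1) ?_ U' hU'ne hMinv ?_
    · exact Submodule.sub_mem _ (Submodule.subset_span ⟨g, hTM i0 hgT, rfl⟩)
        (Submodule.subset_span ⟨1, M.one_mem, rfl⟩)
    · intro u hu
      rw [LinearMap.sub_apply, hgU' u hu, map_one, Module.End.one_apply, sub_self]
  apply hxc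
  refine (hZ g (hTM i0 hgT)).2 ⟨1, fun v => ?_⟩
  rw [sub_eq_zero, map_one] at hzero
  rw [hzero, Module.End.one_apply, one_smul]

/-- Two commuting operators of finite order which are not equal. -/
lemma two [IsAlgClosed K] [Module.Finite K V] (ρ : L →* Module.End K V)
    (U : Submodule K V) (x x' : L) (hxx : ρ x * ρ x' = ρ x' * ρ x)
    (hU0 : ∀ u ∈ U, ρ x u ∈ U) (hU1 : ∀ u ∈ U, ρ x' u ∈ U) (hU2 : ∀ u ∈ U, ρ x⁻¹ u ∈ U)
    (N : ℕ) (hN : (N : K) ≠ 0)
    (hxN : x ^ N = 1) (hxN' : x' ^ N = 1) (hne : ¬ ∀ u ∈ U, ρ x u = ρ x' u) :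
    ∃ (μ ν : K) (u : V), u ∈ U ∧ u ≠ 0 ∧ μ ≠ ν ∧ ρ x u = μ • u ∧ ρ x' u = ν • u := by
  push Not at hne
  obtain ⟨u0, hu0, hne⟩ := hne
  have hi1 : ρ x * ρ x⁻¹ = 1 := by rw [← map_mul, mul_inv_cancel, map_one]
  have hi2 : ρ x⁻¹ * ρ x = 1 := by rw [← map_mul, inv_mul_cancel, map_one]
  have hxx' : Commute (ρ x) (ρ x') := hxx
  have hci : Commute (ρ x') (ρ x⁻¹) := by
    change ρ x' * ρ x⁻¹ = ρ x⁻¹ * ρ x'
    calc ρ x' * ρ x⁻¹ = (ρ x⁻¹ * ρ x) * ρ x' * ρ x⁻¹ := by rw [hi2, one_mul]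
      _ = ρ x⁻¹ * (ρ x * ρ x') * ρ x⁻¹ := by rw [mul_assoc (ρ x⁻¹)]
      _ = ρ x⁻¹ * ρ x' * (ρ x * ρ x⁻¹) := by rw [hxx]; simp only [mul_assoc]
      _ = ρ x⁻¹ * ρ x' := by rw [hi1, mul_one]
  set D : Module.End K V := ρ x' * ρ x⁻¹ with hDdef
  have hDN : D ^ N = 1 := by
    rw [hDdef, hci.mul_pow, ← map_pow, ← map_pow, inv_pow, hxN, hxN', inv_one, map_one, one_mul]
  have hDU : ∀ u ∈ U, D u ∈ U := fun u hu => by
    rw [hDdef, Module.End.mul_apply]
    exact hU1 _ (hU2 _ hu)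
  have hDx : ∀ v : V, D (ρ x v) = ρ x' v := by
    intro v
    rw [hDdef, Module.End.mul_apply, rho_inv]
  have hDcomm : ∀ v : V, D (ρ x v) = ρ x (D v) := by
    intro v
    have h1 : ρ x (D v) = (ρ x * ρ x' * ρ x⁻¹) v := by
      rw [hDdef]; rfl
    rw [h1, hxx, mul_assoc, hi1, mul_one, hDx]
  set E : Module.End K V := ∑ i ∈ Finset.range N, D ^ i with hEdef
  have hE : E * (D - 1) = 0 := by
    rw [hEdef, geom_sum_mul, hDN, sub_self]
  have hE' : (D - 1) * E = 0 := by
    rw [hEdef, mul_geom_sum, hDN, sub_self]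
  have hEU : ∀ w : V, ∀ z : K, D w = z • w → E w = (∑ i ∈ Finset.range N, z ^ i) • w := by
    intro w z hz
    rw [hEdef, LinearMap.sum_apply, Finset.sum_smul]
    have hp : ∀ i : ℕ, (D ^ i) w = z ^ i • w := by
      intro i
      induction i with
      | zero => rw [pow_zero, pow_zero, Module.End.one_apply, one_smul]
      | succ i ih => rw [pow_succ', Module.End.mul_apply, ih, map_smul, hz, smul_smul, pow_succ]
    exact Finset.sum_congr rfl (fun i _ => hp i)
  -- the kernel of `E` in `U`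
  obtain ⟨δ, w, hwU, hw0, hδ⟩ := eig D (U ⊓ LinearMap.ker E) (by
      intro h
      have h1 : D (ρ x u0) - ρ x u0 ∈ U ⊓ LinearMap.ker E := by
        refine ⟨U.sub_mem (hDU _ (hU0 _ hu0)) (hU0 _ hu0), ?_⟩
        rw [SetLike.mem_coe, LinearMap.mem_ker]
        have h2 := congrArg (fun f : Module.End K V => f (ρ x u0)) hE
        simpa using h2
      rw [h, Submodule.mem_bot, sub_eq_zero, hDx] at h1
      exact hne h1.symm) (by
      rintro u ⟨h1, h2⟩
      refine ⟨hDU u h1, ?_⟩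
      rw [SetLike.mem_coe, LinearMap.mem_ker] at h2 ⊢
      have h3 := congrArg (fun f : Module.End K V => f u) hE
      simp only [Module.End.mul_apply, LinearMap.sub_apply, Module.End.one_apply, map_sub,
        LinearMap.zero_apply, sub_eq_zero] at h3
      rw [h3, h2])
  have hδ1 : δ ≠ 1 := by
    intro h
    have h1 := hEU w δ hδ
    rw [LinearMap.mem_ker.1 hwU.2, h] at h1
    simp only [one_pow, Finset.sum_const, Finset.card_range, nsmul_eq_mul, mul_one] at h1
    rcases smul_eq_zero.1 h1.symm with h2 | h2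
    · exact hN h2
    · exact hw0 h2
  obtain ⟨μ, u, huU, hu0', hμ⟩ := eig (ρ x) (U ⊓ LinearMap.ker (D - δ • (1 : Module.End K V))) (by
      intro h
      have h1 : w ∈ U ⊓ LinearMap.ker (D - δ • (1 : Module.End K V)) := by
        refine ⟨hwU.1, ?_⟩
        rw [SetLike.mem_coe, LinearMap.mem_ker, LinearMap.sub_apply, LinearMap.smul_apply, Module.End.one_apply,
          hδ, sub_self]
      rw [h, Submodule.mem_bot] at h1
      exact hw0 h1) (by
      rintro u ⟨h1, h2⟩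
      refine ⟨hU0 u h1, ?_⟩
      rw [SetLike.mem_coe, LinearMap.mem_ker, LinearMap.sub_apply, LinearMap.smul_apply,
        Module.End.one_apply, sub_eq_zero] at h2 ⊢
      rw [hDcomm, h2, map_smul])
  have hDu : D u = δ • u := by
    have h2 := huU.2
    rwa [SetLike.mem_coe, LinearMap.mem_ker, LinearMap.sub_apply, LinearMap.smul_apply,
        Module.End.one_apply, sub_eq_zero] at h2
  refine ⟨μ, μ * δ, u, huU.1, hu0', ?_, hμ, ?_⟩
  · intro h
    have hμ0 : μ ≠ 0 := by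
      intro h0
      rw [h0, zero_smul] at hμ
      have := rho_inv ρ x u
      rw [hμ, map_zero] at this
      exact hu0' this.symm
    exact hδ1 (mul_left_cancel₀ hμ0 (by rw [mul_one]; exact h.symm))
  · rw [← hDx, hμ, map_smul, hDu, smul_smul]

theorem pf_dv : T_DVA → T_DVB → T_DV := by
  intro hDVA hDVB L I _ _ _ _ _ Z M T hMn hZn hZM hR K V _ _ _ _ _ ρ hV hF hZ n t j hj hjj
  have hScal : Scal ρ Z := fun x hx => (hZ x (hZM hx)).1 hx
  have hcomm := hDVA L I Z M T hR K V ρ hV hScal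
  obtain ⟨-, -, hTM, -, -, -, -, hconj, hM⟩ := id hR
  choose x hx N hN hxN c hc hxc using fun l : Fin n => hDVB L I Z M T hZn hR K (j l)
  have key : ∀ S : Finset (Fin n), ∃ (U : Submodule K V) (μ ν : Fin n → K), U ≠ ⊥ ∧
      (∀ l ∈ S, μ l ≠ ν l ∧ ∀ u ∈ U, ρ (x l) u = μ l • u ∧
        ρ (t l * x l * (t l)⁻¹) u = ν l • u) ∧
      ∀ i, (∀ l ∈ S, i ≠ j l ∧ i ≠ t l • j l) → ∀ y ∈ T i, ∀ u ∈ U, ρ y u ∈ U := by
    intro S
    induction S using Finset.induction_on with
    | empty =>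
      obtain ⟨v, hv⟩ := hV
      refine ⟨⊤, fun _ => 0, fun _ => 0, ?_, by simp, fun _ _ _ _ _ _ => Submodule.mem_top⟩
      intro h
      have : v ∈ (⊤ : Submodule K V) := Submodule.mem_top
      rw [h, Submodule.mem_bot] at this
      exact hv this
    | insert k S hk ih =>
      obtain ⟨U, μ, ν, hU, h1, h2⟩ := ih
      have ne1 : ∀ l ∈ S, j k ≠ j l ∧ j k ≠ t l • j l := fun l hl => by
        have hkl : k ≠ l := fun h => hk (h ▸ hl)
        exact ⟨(hjj k l hkl).1, (hjj k l hkl).2.2⟩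
      have ne2 : ∀ l ∈ S, t k • j k ≠ j l ∧ t k • j k ≠ t l • j l := fun l hl => by
        have hkl : k ≠ l := fun h => hk (h ▸ hl)
        exact ⟨((hjj l k hkl.symm).2.2).symm, (hjj k l hkl).2.1⟩
      have hxk' : t k * x k * (t k)⁻¹ ∈ T (t k • j k) := hconj (t k) (j k) (x k) (hx k)
      have p0 := h2 (j k) ne1
      have p1 := h2 (t k • j k) ne2
      have hneq := noteq ρ Z M T hcomm hTM hM hZn hZ hZM hF U hU (j k) (t k • j k)
        (hj k).symm p0 (x k) (t k * x k * (t k)⁻¹) (hx k) hxk' (c k) (hc k) (hxc k)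
      have hconjN : (t k * x k * (t k)⁻¹) ^ N k = 1 := by
        rw [conj_pow, hxN, mul_one, mul_inv_cancel]
      obtain ⟨μ', ν', u, huU, hu0, hμν, e1, e2⟩ := two ρ U (x k) (t k * x k * (t k)⁻¹)
        (hcomm _ _ (hj k).symm _ (hx k) _ hxk') (p0 _ (hx k)) (p1 _ hxk')
        (p0 _ ((T (j k)).inv_mem (hx k))) (N k) (hN k) (hxN k) hconjN hneq
      refine ⟨U ⊓ (LinearMap.ker (ρ (x k) - μ' • (1 : Module.End K V)) ⊓
        LinearMap.ker (ρ (t k * x k * (t k)⁻¹) - ν' • (1 : Module.End K V))),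
        Function.update μ k μ', Function.update ν k ν', ?_, ?_, ?_⟩
      · intro h
        have h3 : u ∈ U ⊓ (LinearMap.ker (ρ (x k) - μ' • (1 : Module.End K V)) ⊓
            LinearMap.ker (ρ (t k * x k * (t k)⁻¹) - ν' • (1 : Module.End K V))) := by
          refine ⟨huU, ?_, ?_⟩
          · rw [SetLike.mem_coe, LinearMap.mem_ker, LinearMap.sub_apply, LinearMap.smul_apply,
              Module.End.one_apply, e1, sub_self]
          · rw [SetLike.mem_coe, LinearMap.mem_ker, LinearMap.sub_apply, LinearMap.smul_apply,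
              Module.End.one_apply, e2, sub_self]
        rw [h, Submodule.mem_bot] at h3
        exact hu0 h3
      · intro l hl
        rcases Finset.mem_insert.1 hl with hlk | hlS
        · subst hlk
          simp only [Function.update_self]
          refine ⟨hμν, ?_⟩
          rintro v ⟨-, hv1, hv2⟩
          rw [SetLike.mem_coe, LinearMap.mem_ker, LinearMap.sub_apply, LinearMap.smul_apply,
            Module.End.one_apply, sub_eq_zero] at hv1 hv2
          exact ⟨hv1, hv2⟩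
        · have hlk : l ≠ k := fun h => hk (h ▸ hlS)
          rw [Function.update_of_ne hlk, Function.update_of_ne hlk]
          exact ⟨(h1 l hlS).1, fun v hv => (h1 l hlS).2 v hv.1⟩
      · intro i hi y hy
        rintro v ⟨hv0, hv1, hv2⟩
        have hik := hi k (Finset.mem_insert_self _ _)
        refine ⟨h2 i (fun l hl => hi l (Finset.mem_insert_of_mem hl)) y hy v hv0, ?_, ?_⟩
        · rw [SetLike.mem_coe, LinearMap.mem_ker, LinearMap.sub_apply, LinearMap.smul_apply,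
            Module.End.one_apply, sub_eq_zero] at hv1 ⊢
          rw [← Module.End.mul_apply, ← hcomm i (j k) hik.1 y hy (x k) (hx k),
            Module.End.mul_apply, hv1, map_smul]
        · rw [SetLike.mem_coe, LinearMap.mem_ker, LinearMap.sub_apply, LinearMap.smul_apply,
            Module.End.one_apply, sub_eq_zero] at hv2 ⊢
          rw [← Module.End.mul_apply, ← hcomm i (t k • j k) hik.2 y hy _ hxk',
            Module.End.mul_apply, hv2, map_smul]
  obtain ⟨U, μ, ν, hU, h1, -⟩ := key Finset.univ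
  obtain ⟨v, hvU, hv0⟩ := Submodule.exists_mem_ne_zero_of_ne_bot hU
  refine ⟨v, x, μ, ν, hv0, fun l => ⟨hx l, ?_, ?_, (h1 l (Finset.mem_univ l)).1⟩⟩
  · exact ((h1 l (Finset.mem_univ l)).2 v hvU).1
  · exact ((h1 l (Finset.mem_univ l)).2 v hvU).2

end Pool.Agent.H21.NZ.DV
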