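import Pool.Agent.H11.NZ.Targets

/-!
# Elements with large support move many points of every faithful-like action
-/

set_option autoImplicit false

open Equiv (Perm)

namespace Pool.Agent.H21.NZ.MV

open Pool.Agent.H11.NZ Pool.Agent.H11.NY

/-- Counting in the fibres of a surjective homomorphism. -/
lemma cnt {G H : Type} [Group G] [Group H] (φ : G →* H) (hφ : Function.Surjective φ)
    (P : H → Prop) :
    Nat.card {x : G // P (φ x)} = Nat.card {y : H // P y} * Nat.card φ.ker := by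
  choose s hs using hφ
  rw [← Nat.card_prod]
  refine Nat.card_congr
    { toFun := fun x => (⟨φ x.1, x.2⟩, ⟨(s (φ x.1))⁻¹ * x.1, ?_⟩)
      invFun := fun p => ⟨s p.1.1 * p.2.1, ?_⟩
      left_inv := ?_
      right_inv := ?_ }
  · rw [MonoidHom.mem_ker, map_mul, map_inv, hs, inv_mul_cancel]
  · have := p.2.2
    rw [MonoidHom.mem_ker] at this
    rw [map_mul, hs, this, mul_one]
    exact p.1.2
  · intro x
    apply Subtype.ext
    simp
  · rintro ⟨⟨y, hy⟩, ⟨k, hk⟩⟩
    rw [MonoidHom.mem_ker] at hk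
    have h1 : φ (s y * k) = y := by rw [map_mul, hs, hk, mul_one]
    simp only [Prod.mk.injEq, Subtype.mk.injEq]
    refine ⟨h1, ?_⟩
    rw [h1]
    group

lemma cnt0 {G H : Type} [Group G] [Group H] (φ : G →* H) (hφ : Function.Surjective φ) :
    Nat.card G = Nat.card H * Nat.card φ.ker := by
  have h := cnt φ hφ (fun _ => True)
  rwa [Nat.card_congr (Equiv.subtypeUnivEquiv (fun _ => trivial)),
    Nat.card_congr (Equiv.subtypeUnivEquiv (fun _ => trivial))] at h

/-- The permutations with disjoint supports. -/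
lemma disj_comm {L I : Type} [Group L] [MulAction L I] (a b : L)
    (h : ∀ i : I, a • i = i ∨ b • i = i) (i : I) : (a * b * a⁻¹ * b⁻¹) • i = i := by
  have h1 : Equiv.Perm.Disjoint (MulAction.toPermHom L I a) (MulAction.toPermHom L I b) :=
    fun i => h i
  have h2 := h1.commute
  have h3 : MulAction.toPermHom L I (a * b * a⁻¹ * b⁻¹) = 1 := by
    rw [map_mul, map_mul, map_mul, map_inv, map_inv, h2.eq]
    group
  have h4 := congrArg (fun σ : Perm I => σ i) h3
  simpa using h4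

section act

variable {L I : Type} [Group L] [Finite L] [MulAction L I] (X : Subgroup L)

lemma stab_le (hX : X.Normal) (hT : MulAction.IsPretransitive L I) (i j : I) :
    Nat.card (MulAction.stabilizer X i) ≤ Nat.card (MulAction.stabilizer X j) := by
  obtain ⟨y, hy⟩ := hT.exists_smul_eq i j
  refine Nat.card_le_card_of_injective
    (fun x => (⟨⟨y * x.1.1 * y⁻¹, hX.conj_mem _ x.1.2 y⟩, ?_⟩ : MulAction.stabilizer X j)) ?_
  · have h1 : (x.1.1 : L) • i = i := x.2
    change (y * x.1.1 * y⁻¹) • j = j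
    rw [← hy, mul_smul, mul_smul, inv_smul_smul, h1]
  · intro x x' h
    have h1 : y * x.1.1 * y⁻¹ = y * x'.1.1 * y⁻¹ := congrArg (fun z => (z.1.1 : L)) h
    have h2 : x.1.1 = x'.1.1 := by simpa using h1
    exact Subtype.ext (Subtype.ext h2)

lemma fib_le (i j : I) : Nat.card {x : X // (x : L) • i = j} ≤
    Nat.card (MulAction.stabilizer X i) := by
  by_cases h : Nonempty {x : X // (x : L) • i = j}
  · obtain ⟨x0, h0⟩ := h
    refine Nat.card_le_card_of_injective
      (fun x => (⟨x0⁻¹ * x.1, ?_⟩ : MulAction.stabilizer X i)) ?_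
    · change (x0⁻¹ * x.1 : X) • i = i
      rw [mul_smul]
      have h1 : x.1 • i = j := x.2
      have h2 : x0 • i = j := h0
      rw [h1, ← h2, inv_smul_smul]
    · intro x x' hxx
      have h1 : x0⁻¹ * x.1 = x0⁻¹ * x'.1 := congrArg (fun z => z.1) hxx
      exact Subtype.ext (mul_left_cancel h1)
  · rw [not_nonempty_iff] at h
    rw [Nat.card_of_isEmpty]
    exact Nat.zero_le _

omit [Finite L] in
lemma orb_mul (i : I) : Nat.card (MulAction.orbit X i) * Nat.card (MulAction.stabilizer X i) =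
    Nat.card X := by
  rw [Nat.card_congr (MulAction.orbitEquivQuotientStabilizer X i),
    ← Subgroup.card_eq_card_quotient_mul_card_subgroup]

lemma meets_le (A : Finset I) (c : ℕ)
    (hc : ∀ i j : I, Nat.card {x : X // (x : L) • i = j} ≤ c) :
    Nat.card {x : X // ∃ i ∈ A, (x : L) • i ∈ A} ≤ A.card ^ 2 * c := by
  classical
  have : Fintype X := Fintype.ofFinite X
  rw [Nat.card_eq_fintype_card, Fintype.card_subtype]
  have h1 : (Finset.univ.filter fun x : X => ∃ i ∈ A, (x : L) • i ∈ A) ⊆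
      (A ×ˢ A).biUnion (fun p => Finset.univ.filter fun x : X => (x : L) • p.1 = p.2) := by
    intro x hx
    obtain ⟨i, hi, hxi⟩ := (Finset.mem_filter.1 hx).2
    exact Finset.mem_biUnion.2 ⟨(i, (x : L) • i), Finset.mem_product.2 ⟨hi, hxi⟩,
      Finset.mem_filter.2 ⟨Finset.mem_univ _, rfl⟩⟩
  refine (Finset.card_le_card h1).trans ?_
  have h2 := Finset.card_biUnion_le_card_mul (A ×ˢ A)
    (fun p => Finset.univ.filter fun x : X => (x : L) • p.1 = p.2) c (fun p _ => by
      have := hc p.1 p.2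
      rwa [Nat.card_eq_fintype_card, Fintype.card_subtype] at this)
  rwa [Finset.card_product, ← sq] at h2

lemma fix_le [Finite I] (A : Finset I) (R : ℕ)
    (hR : ∀ i : I, Nat.card (MulAction.orbit X i) ≤ R) (Y : Subgroup L)
    (hY : ∀ x ∈ X, (∀ i ∈ A, x • i = i) → x ∈ Y) :
    Nat.card X ≤ Nat.card Y * R ^ A.card := by
  classical
  have : Fintype X := Fintype.ofFinite X
  have : Fintype I := Fintype.ofFinite I
  let F : X → (A → I) := fun x i => (x : L) • (i : I)
  let T : Finset (A → I) := Fintype.piFinset (fun i : A => (MulAction.orbit X (i : I)).toFinset)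
  have h1 : ∀ x ∈ (Finset.univ : Finset X), F x ∈ T := by
    intro x _
    refine Fintype.mem_piFinset.2 (fun i => ?_)
    rw [Set.mem_toFinset]
    exact ⟨x, rfl⟩
  have h2 : ∀ b ∈ T, (Finset.univ.filter fun x : X => F x = b).card ≤ Nat.card Y := by
    intro b _
    rw [← Fintype.card_subtype, ← Nat.card_eq_fintype_card]
    by_cases h : Nonempty {x : X // F x = b}
    · obtain ⟨x0, h0⟩ := h
      refine Nat.card_le_card_of_injective
        (fun x => (⟨(x0 : L)⁻¹ * (x.1 : L), ?_⟩ : Y)) ?_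
      · refine hY _ (X.mul_mem (X.inv_mem x0.2) x.1.2) (fun i hi => ?_)
        have h3 : F x.1 ⟨i, hi⟩ = F x0 ⟨i, hi⟩ := by rw [x.2, h0]
        change (x.1 : L) • i = (x0 : L) • i at h3
        rw [mul_smul, h3, inv_smul_smul]
      · intro x x' hxx
        have h1 : (x0 : L)⁻¹ * (x.1 : L) = (x0 : L)⁻¹ * (x'.1 : L) :=
          congrArg (fun z : Y => (z : L)) hxx
        exact Subtype.ext (Subtype.ext (mul_left_cancel h1))
    · rw [not_nonempty_iff] at h
      rw [Nat.card_of_isEmpty]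
      exact Nat.zero_le _
  have h3 := Finset.card_le_mul_card_image_of_maps_to h1 _ h2
  rw [Finset.card_univ, ← Nat.card_eq_fintype_card] at h3
  refine h3.trans (Nat.mul_le_mul_left _ ?_)
  rw [Fintype.card_piFinset]
  refine (Finset.prod_le_pow_card _ _ R (fun i _ => ?_)).trans ?_
  · rw [Set.toFinset_card, ← Nat.card_eq_fintype_card]
    exact hR i
  · rw [Finset.card_univ, Fintype.card_coe]

end act

/-- The arithmetic at the end. -/
lemma arith {m n y a : ℕ} (hn : m ^ 2 + 16 ≤ n) (hy : 0 < y)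
    (h1 : n ^ (8 * m + 4) * y ≤ 2 ^ (8 * m + 4) * a)
    (h2 : a ≤ (m ^ 2 * n ^ 4) ^ m * y) : False := by
  have h3 : n ^ (8 * m + 4) * y ≤ (2 ^ (8 * m + 4) * (m ^ 2 * n ^ 4) ^ m) * y := by
    rw [mul_assoc]
    exact h1.trans (Nat.mul_le_mul_left _ h2)
  have h4 := Nat.le_of_mul_le_mul_right h3 hy
  have h5 : 2 ^ (8 * m + 4) ≤ n ^ (2 * m + 1) := by
    have : (2 : ℕ) ^ (8 * m + 4) = 16 ^ (2 * m + 1) := by
      rw [show (16 : ℕ) = 2 ^ 4 by norm_num, ← pow_mul]
      congr 1
      ring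
    rw [this]
    exact Nat.pow_le_pow_left (by omega) _
  have h6 : (m ^ 2 * n ^ 4) ^ m ≤ n ^ (5 * m) := by
    have : m ^ 2 * n ^ 4 ≤ n ^ 5 := by
      rw [pow_succ n 4, mul_comm (n ^ 4)]
      exact Nat.mul_le_mul_right _ (by omega)
    rw [pow_mul]
    exact Nat.pow_le_pow_left this _
  have h7 : n ^ (8 * m + 4) ≤ n ^ (7 * m + 1) := by
    refine h4.trans ((Nat.mul_le_mul h5 h6).trans ?_)
    rw [← pow_add]
    exact Nat.pow_le_pow_right (by omega) (by omega)
  have h8 : n ^ (7 * m + 1) < n ^ (8 * m + 4) := Nat.pow_lt_pow_right (by omega) (by omega)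
  omega

theorem pf_mv : T_NCM → T_CLS → T_MV := by
  intro hNCM hCLS m
  refine ⟨max (4 * (8 * m + 4) + 2) (m ^ 2 + 16), ?_⟩
  intro L Ω I _ _ _ _ _ _ _ ψ X hX hT hmov t hB
  by_contra hcon
  push Not at hcon
  set A : Finset I := Finset.univ.filter fun i : I => t • i ≠ i with hA
  have hAm : ∀ i : I, i ∉ A → t • i = i := by
    intro i hi
    by_contra h
    exact hi (Finset.mem_filter.2 ⟨Finset.mem_univ _, h⟩)
  obtain ⟨hXn, hXm, hXmin⟩ := hX
  have hn1 : (ψ t : Perm Ω).support.card ≤ Fintype.card Ω := Finset.card_le_univ _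
  have hB1 : 4 * (8 * m + 4) + 2 ≤ (ψ t : Perm Ω).support.card := (le_max_left _ _).trans hB
  have hn2 : m ^ 2 + 16 ≤ Fintype.card Ω := ((le_max_right _ _).trans hB).trans hn1
  set n := Fintype.card Ω with hn
  have hψt : ψ t ≠ 1 := by
    intro h
    rw [h] at hB1
    simp at hB1
  -- the subgroup acting trivially
  let J : Subgroup L :=
    { carrier := {x | x ∈ X ∧ ∀ i : I, x • i = i}
      one_mem' := ⟨X.one_mem, fun i => one_smul _ i⟩
      mul_mem' := fun {a b} ha hb => ⟨X.mul_mem ha.1 hb.1, fun i => by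
        rw [mul_smul, hb.2, ha.2]⟩
      inv_mem' := fun {a} ha => ⟨X.inv_mem ha.1, fun i => by
        rw [inv_smul_eq_iff, ha.2]⟩ }
  have hJmem : ∀ x, x ∈ J ↔ x ∈ X ∧ ∀ i : I, x • i = i := fun x => Iff.rfl
  have hJn : ∀ x ∈ X, ∀ y ∈ J, x * y * x⁻¹ ∈ J := by
    intro x hx y hy
    refine ⟨X.mul_mem (X.mul_mem hx hy.1) (X.inv_mem hx), fun i => ?_⟩
    rw [mul_smul, mul_smul, hy.2, smul_inv_smul]
  have hJt : J.map ψ ≠ ⊤ := by
    intro h
    have h1 := hXmin J (fun x hx => hx.1) hJn h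
    obtain ⟨x, hx, i, hi⟩ := hmov
    rw [← h1] at hx
    exact hi (hx.2 i)
  have hJψ : ∀ x ∈ J, ψ x = 1 := by
    have h1 : (J.map ψ).Normal := by
      refine ⟨?_⟩
      rintro _ ⟨y, hy, rfl⟩ g
      have h2 : g ∈ X.map ψ := by rw [hXm]; exact Subgroup.mem_top g
      obtain ⟨x, hx, rfl⟩ := h2
      exact ⟨x * y * x⁻¹, hJn x hx y hy, by rw [map_mul, map_mul, map_inv]⟩
    have : IsSimpleGroup (alternatingGroup Ω) :=
      alternatingGroup.isSimpleGroup (by rw [Nat.card_eq_fintype_card]; omega)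
    rcases h1.eq_bot_or_eq_top with h2 | h2
    · intro x hx
      have : ψ x ∈ J.map ψ := ⟨x, hx, rfl⟩
      rw [h2] at this
      exact this
    · exact absurd h2 hJt
  -- the surjection
  let φ : X →* alternatingGroup Ω := ψ.comp X.subtype
  have hφ : Function.Surjective φ := by
    intro y
    have h2 : y ∈ X.map ψ := by rw [hXm]; exact Subgroup.mem_top y
    obtain ⟨x, hx, rfl⟩ := h2
    exact ⟨⟨x, hx⟩, rfl⟩
  have hN := cnt0 φ hφ
  have hf : 0 < Nat.card φ.ker := Nat.card_pos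
  obtain ⟨i0, -⟩ : ∃ i : I, True := by
    obtain ⟨x, hx, i, hi⟩ := hmov
    exact ⟨i, trivial⟩
  set c := Nat.card (MulAction.stabilizer X i0) with hc
  have hcpos : 0 < c := Nat.card_pos
  have hstab : ∀ i : I, Nat.card (MulAction.stabilizer X i) = c := fun i =>
    le_antisymm (stab_le X hXn hT i i0) (stab_le X hXn hT i0 i)
  rcases Nat.lt_or_ge (m ^ 2 * n ^ 4 * c) (Nat.card X) with hcase | hcase
  · -- case 1
    have h1 := meets_le X A c (fun i j => (fib_le X i j).trans (hstab i).le)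
    have h2 := hNCM Ω (by omega) (ψ t) hψt
    have h3 := cnt φ hφ (fun σ => ψ t * (σ * ψ t * σ⁻¹) ≠ σ * ψ t * σ⁻¹ * ψ t)
    have h4 : Nat.card X ≤ n ^ 4 *
        Nat.card {x : X // ψ t * (φ x * ψ t * (φ x)⁻¹) ≠ φ x * ψ t * (φ x)⁻¹ * ψ t} := by
      rw [h3, hN, ← mul_assoc]
      exact Nat.mul_le_mul_right _ h2
    have h5 : n ^ 4 * Nat.card {x : X // ∃ i ∈ A, (x : L) • i ∈ A} < Nat.card X := by
      refine lt_of_le_of_lt ?_ hcase
      calc n ^ 4 * Nat.card {x : X // ∃ i ∈ A, (x : L) • i ∈ A}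
          ≤ n ^ 4 * (A.card ^ 2 * c) := Nat.mul_le_mul_left _ h1
        _ ≤ n ^ 4 * (m ^ 2 * c) :=
            Nat.mul_le_mul_left _ (Nat.mul_le_mul_right _ (Nat.pow_le_pow_left hcon.le 2))
        _ = m ^ 2 * n ^ 4 * c := by ring
    have h6 : Nat.card {x : X // ∃ i ∈ A, (x : L) • i ∈ A} <
        Nat.card {x : X // ψ t * (φ x * ψ t * (φ x)⁻¹) ≠ φ x * ψ t * (φ x)⁻¹ * ψ t} :=
      lt_of_mul_lt_mul_left (h5.trans_le h4) (Nat.zero_le _)
    obtain ⟨x, hx1, hx2⟩ : ∃ x : X,
        ψ t * (φ x * ψ t * (φ x)⁻¹) ≠ φ x * ψ t * (φ x)⁻¹ * ψ t ∧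
        ¬ ∃ i ∈ A, (x : L) • i ∈ A := by
      by_contra hno
      push Not at hno
      refine absurd h6 (not_lt.2 ?_)
      exact Nat.card_le_card_of_injective
        (fun z => (⟨z.1, hno z.1 z.2⟩ : {x : X // ∃ i ∈ A, (x : L) • i ∈ A}))
        (fun z z' hz => Subtype.ext (congrArg (fun w => w.1) hz))
    push Not at hx2
    have hz : t * ((x : L) * t * (x : L)⁻¹) * t⁻¹ * ((x : L) * t * (x : L)⁻¹)⁻¹ ∈ J := by
      refine ⟨?_, disj_comm t ((x : L) * t * (x : L)⁻¹) (fun i => ?_)⟩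
      · have e1 : t * ((x : L) * t * (x : L)⁻¹) * t⁻¹ * ((x : L) * t * (x : L)⁻¹)⁻¹ =
            (t * x * t⁻¹) * ((t * t) * (x : L)⁻¹ * (t * t)⁻¹) * (t * x * t⁻¹) * (x : L)⁻¹ := by
          group
        rw [e1]
        exact X.mul_mem (X.mul_mem (X.mul_mem (hXn.conj_mem _ x.2 t)
          (hXn.conj_mem _ (X.inv_mem x.2) (t * t))) (hXn.conj_mem _ x.2 t)) (X.inv_mem x.2)
      · by_cases hi : i ∈ A
        · right
          have h7 : (x : L)⁻¹ • i ∉ A := by
            intro h8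
            have := hx2 _ h8
            rw [smul_inv_smul] at this
            exact this hi
          rw [mul_smul, mul_smul, hAm _ h7, smul_inv_smul]
        · left
          exact hAm i hi
    have h7 := hJψ _ hz
    apply hx1
    have h8 : ψ t * (ψ x * ψ t * (ψ x)⁻¹) * (ψ t)⁻¹ * (ψ x * ψ t * (ψ x)⁻¹)⁻¹ = 1 := by
      rw [← h7]
      simp only [map_mul, map_inv]
    change ψ t * (ψ x * ψ t * (ψ x)⁻¹) = ψ x * ψ t * (ψ x)⁻¹ * ψ t
    rw [mul_inv_eq_one, mul_inv_eq_iff_eq_mul] at h8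
    exact h8
  · -- case 2
    have hR : ∀ i : I, Nat.card (MulAction.orbit X i) ≤ m ^ 2 * n ^ 4 := by
      intro i
      have h1 := orb_mul X i
      rw [hstab i] at h1
      rw [← h1] at hcase
      exact Nat.le_of_mul_le_mul_right hcase hcpos
    let Y : Subgroup L :=
      { carrier := {x | x ∈ X ∧ ∀ i ∈ A, x • i = i}
        one_mem' := ⟨X.one_mem, fun i _ => one_smul _ i⟩
        mul_mem' := fun {a b} ha hb => ⟨X.mul_mem ha.1 hb.1, fun i hi => by
          rw [mul_smul, hb.2 i hi, ha.2 i hi]⟩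
        inv_mem' := fun {a} ha => ⟨X.inv_mem ha.1, fun i hi => by
          rw [inv_smul_eq_iff, ha.2 i hi]⟩ }
    have h1 := fix_le X A _ hR Y (fun x hx h => ⟨hx, h⟩)
    have h2 : ∀ y ∈ Y.map ψ, y * ψ t = ψ t * y := by
      rintro _ ⟨x, hx, rfl⟩
      have hz : x * t * x⁻¹ * t⁻¹ ∈ J := by
        refine ⟨?_, disj_comm x t (fun i => ?_)⟩
        · have e1 : x * t * x⁻¹ * t⁻¹ = x * (t * x⁻¹ * t⁻¹) := by group
          rw [e1]
          exact X.mul_mem hx.1 (hXn.conj_mem _ (X.inv_mem hx.1) t)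
        · by_cases hi : i ∈ A
          · exact Or.inl (hx.2 i hi)
          · exact Or.inr (hAm i hi)
      have h7 := hJψ _ hz
      rw [map_mul, map_mul, map_mul, map_inv, map_inv, mul_inv_eq_one,
        mul_inv_eq_iff_eq_mul] at h7
      exact h7
    have h3 := hCLS Ω (8 * m + 4) (ψ t) (Y.map ψ) hB1 h2
    have h4 : Nat.card Y ≤ Nat.card (Y.map ψ) * Nat.card φ.ker := by
      rw [cnt0 (ψ.subgroupMap Y) (ψ.subgroupMap_surjective Y)]
      refine Nat.mul_le_mul_left _ ?_
      refine Nat.card_le_card_of_injective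
        (fun z => (⟨⟨z.1.1, z.1.2.1⟩, ?_⟩ : φ.ker)) ?_
      · have := z.2
        rw [MonoidHom.mem_ker] at this ⊢
        exact congrArg (fun w => w.1) this
      · intro z z' hz
        have : z.1.1 = z'.1.1 := congrArg (fun w => (w.1.1 : L)) hz
        exact Subtype.ext (Subtype.ext this)
    have h5 : Nat.card (alternatingGroup Ω) ≤
        (m ^ 2 * n ^ 4) ^ m * Nat.card (Y.map ψ) := by
      have h6 : Nat.card (alternatingGroup Ω) * Nat.card φ.ker ≤
          ((m ^ 2 * n ^ 4) ^ m * Nat.card (Y.map ψ)) * Nat.card φ.ker := by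
        rw [← hN]
        refine h1.trans ?_
        calc Nat.card Y * (m ^ 2 * n ^ 4) ^ A.card
            ≤ (Nat.card (Y.map ψ) * Nat.card φ.ker) * (m ^ 2 * n ^ 4) ^ m := by
              refine Nat.mul_le_mul h4 (Nat.pow_le_pow_right ?_ hcon.le)
              have hm : 0 < m := by omega
              have hn0 : 0 < n := by omega
              positivity
          _ = _ := by ring
      exact Nat.le_of_mul_le_mul_right h6 hf
    exact arith hn2 Nat.card_pos h3 h5

end Pool.Agent.H21.NZ.MV
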